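import Pool.Agent.H28.EN.Targets

/-!
# The largest correlation on the multiples of `q` (row MQF)
-/

set_option autoImplicit false

open Finset Pool.Agent.H6.N4D Pool.Agent.H93.EB Pool.Agent.H28.EN

namespace Pool.Agent.H41.EN

theorem crq_eq (lam : ℕ → ℝ) (q N n : ℕ) (θ : ℝ) :
    crq lam q N n θ = cr (fq lam q) N n θ := by
  unfold crq cr fq
  rw [Finset.sum_filter, Finset.sum_mul]
  congr 1
  refine Finset.sum_congr rfl fun m _ => ?_
  by_cases h : q ∣ m
  · rw [if_pos h, if_pos h]
    push_cast
    ring
  · rw [if_neg h, if_neg h]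
    push_cast
    ring

theorem pf_MQF : T_MQF := by
  intro lam q N n
  unfold Mq M
  exact congrArg iSup (funext fun θ => by rw [crq_eq])

end Pool.Agent.H41.EN
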